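import Mathlib
import Pool.Agent.H69R3.Defs
import Pool.Agent.H69R3.Extendial

set_option autoImplicit false

universe u

namespace Pool.Agent.Results.MP_160dec_gt.TExtralTExtendial

open Pool.Agent.H69R3

/-- Every (Tychonoff) space which is both t-extral and t-extendial is metrizable (in ZFC). -/
theorem result (X : Type u) [TopologicalSpace X] [T35Space X] (hX : TExtral X)
    (he : TExtendial X) : TopologicalSpace.MetrizableSpace X :=
  metrizable_of_extral hX fun _ B hB hQ => OT_of_extendial he B hB hQ

end Pool.Agent.Results.MP_160dec_gt.TExtralTExtendial
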